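import Pool.Agent.L7h59.NC.Stm2
import Pool.Agent.L7h58.SK.Main

/-!
# Part COM1 of project NC (helper21): commutative rings, `K₁`
-/

set_option autoImplicit false

namespace Pool.Agent.L7h21.NC

open Pool.Agent.L7h59.TW Pool.Agent.L7h59.NC

noncomputable section

/-- the relations are the same -/
theorem rel_eq (C G : Type) [CommRing C] [Group G] :
    (Pool.Agent.L7h59.NC.Rel k1 C G : Set (FreeAbelianGroup (Pool.Agent.L7h59.NC.Sym k1 C G))) =
      (Pool.Agent.Y69.FJK.ColimRel C G : Set (FreeAbelianGroup (Pool.Agent.Y69.FJK.Sym C G))) :=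
  rfl

theorem asm_eq (C G : Type) [CommRing C] [Group G]
    (z : FreeAbelianGroup (Pool.Agent.Y69.FJK.Sym C G)) :
    (Pool.Agent.L7h59.NC.asmPre k1 C G z : Pool.Agent.Y69.FJK.GK1 C G) =
      Pool.Agent.Y69.FJK.assemblyPre C G z := rfl

theorem fin_all (C G : Type) [CommRing C] [Group G]
    (h : Finite (MaximalSpectrum C) ∨
      ∀ s : Finset C, ∃ t : Finset C, s ⊆ t ∧ Ring.KrullDimLE 1 (Algebra.adjoin ℤ (t : Set C)))
    (x : Pool.Agent.Y69.FJK.ColimK1 C G) (n : ℕ) (hn : 0 < n)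
    (hx : n • Pool.Agent.Y69.FJK.assembly C G x = 0) : ∃ l : ℕ, 0 < l ∧ l • x = 0 := by
  rcases h with h | h
  · have := h
    exact Pool.Agent.L7h58.SK.fin_tor C G
      (fun D _ _ _ m M hM => Pool.Agent.L7h58.SK.sk1_semilocal C D m M hM) x n hn hx
  · exact Pool.Agent.L7h58.SK.fin_tor C G
      (fun D _ _ _ m M hM => Pool.Agent.L7h58.SK.sk1_union C h D m M hM) x n hn hx

/-- part COM1 -/
theorem s_COM1 : S_COM1 := by
  intro C G _ _ h z n hn hz
  exact fin_all C G h (QuotientAddGroup.mk (s := AddSubgroup.closure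
    (Pool.Agent.Y69.FJK.ColimRel C G)) z : Pool.Agent.Y69.FJK.ColimK1 C G) n hn hz

end

end Pool.Agent.L7h21.NC
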